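import Pool.Agent.Q14.QTor

set_option autoImplicit false

/-!
The second symbolic power of the Stanley–Reisner ideal of a matroid all of whose circuits have the
same size defines a level algebra.

Write `N` for the dual matroid and `h` for its rank. The strand of multidegree `b` of the Koszul
complex of `R/I^(2)` is spanned by the sets `T` with `rk({b = 0} ∪ (T ∩ {b = 1})) ≥ h - 1` and
`rk({b ≤ 1} ∪ (T ∩ {b = 2})) = h`. Deletion and contraction of elements show that it is acyclic above
degree `h`, and acyclic in degree `h` unless `{b = 0}` is the set of loops and `{b ≤ 1}` a hyperplane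
of `N`, i.e. `{b = 2}` is a circuit.
-/

namespace Pool.Agent.Results.MP_d6b0b9_al.Equicardinal

open MvPolynomial Q14.Mono Q14.QTor Finset Pool.Agent.H677R3.EdgeReg

variable {n : ℕ}

/-- The Stanley–Reisner ideal of the complex of independent sets of the matroid `M` on `[n]`. -/
noncomputable def srIdeal (k : Type*) [Field k] (M : Matroid (Fin n)) :
    Ideal (MvPolynomial (Fin n) k) := sqf k {F | ¬ M.Indep (F : Set (Fin n))}

/-- `R/J` is a level algebra, `R = k[x_1, …, x_n]`: it is Cohen–Macaulay, i.e. its projective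
dimension is the height `c` of `J`, and `Tor_c(R/J, k)` is concentrated in a single degree. -/
def IsLevel {k : Type*} [Field k] (J : Ideal (MvPolynomial (Fin n) k)) : Prop :=
  ∃ c d : ℕ, J.height = c ∧ (∀ i e, c < i → ¬ TorQ J i e) ∧ ∀ e, TorQ J c e → e = d

/-! ### Abstract rank functions -/

/-- Three properties of the rank function of a matroid. -/
structure IsRk (r : Finset (Fin n) → ℕ) : Prop where
  mono : ∀ S T, S ⊆ T → r S ≤ r T
  insert_le : ∀ S e, r (insert e S) ≤ r S + 1
  closure : ∀ S T e, S ⊆ T → r (insert e S) = r S → r (insert e T) = r T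

/-- The family of sets in the strands of the Koszul complex. -/
def Fam (r : Finset (Fin n) → ℕ) (X1 E1 X2 E2 : Finset (Fin n)) (p q : ℕ)
    (A B : Finset (Fin n)) (T : Finset (Fin n)) : Prop :=
  (A ⊆ T ∧ T ⊆ B) ∧ p ≤ r (X1 ∪ (T ∩ E1)) ∧ q ≤ r (X2 ∪ (T ∩ E2))

lemma fam_up {r : Finset (Fin n) → ℕ} (hr : IsRk r) {X1 E1 X2 E2 : Finset (Fin n)} {p q : ℕ}
    {A B S T : Finset (Fin n)} (hS : Fam r X1 E1 X2 E2 p q A B S) (hST : S ⊆ T) (hT : T ⊆ B) :
    Fam r X1 E1 X2 E2 p q A B T :=
  ⟨⟨hS.1.1.trans hST, hT⟩,
    hS.2.1.trans (hr.mono _ _ (union_subset_union_right (inter_subset_inter_right hST))),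
    hS.2.2.trans (hr.mono _ _ (union_subset_union_right (inter_subset_inter_right hST)))⟩

/-- Toggling an element outside `A` that does not change the rank conditions. -/
lemma fam_toggle {k : Type*} [Field k] {r : Finset (Fin n) → ℕ} (hr : IsRk r)
    {X1 E1 X2 E2 : Finset (Fin n)} {p q : ℕ}
    {A B : Finset (Fin n)} (l : ℕ) {e : Fin n} (heA : e ∉ A) (heB : e ∈ B)
    (h1 : e ∈ E1 → r (insert e (X1 ∪ (A ∩ E1))) = r (X1 ∪ (A ∩ E1)) ∨ p ≤ r (X1 ∪ (A ∩ E1)))
    (h2 : e ∈ E2 → r (insert e (X2 ∪ (A ∩ E2))) = r (X2 ∪ (A ∩ E2)) ∨ q ≤ r (X2 ∪ (A ∩ E2))) :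
    RelAcyc k (Fam r X1 E1 X2 E2 p q A B) l := by
  have key : ∀ (X E : Finset (Fin n)) (s : ℕ) (T : Finset (Fin n)), A ⊆ T →
      (e ∈ E → r (insert e (X ∪ (A ∩ E))) = r (X ∪ (A ∩ E)) ∨ s ≤ r (X ∪ (A ∩ E))) →
      (s ≤ r (X ∪ (insert e T ∩ E)) ↔ s ≤ r (X ∪ (T ∩ E))) := by
    intro X E s T hAT h
    by_cases he : e ∈ E
    · have h3 : X ∪ (insert e T ∩ E) = insert e (X ∪ (T ∩ E)) := by
        rw [insert_inter_of_mem he, union_insert]
      have hsub : X ∪ (A ∩ E) ⊆ X ∪ (T ∩ E) :=
        union_subset_union_right (inter_subset_inter_right hAT)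
      rw [h3]
      rcases h he with h4 | h4
      · rw [hr.closure _ _ e hsub h4]
      · exact ⟨fun _ => h4.trans (hr.mono _ _ hsub),
          fun _ => h4.trans (hr.mono _ _ (hsub.trans (subset_insert _ _)))⟩
    · rw [insert_inter_of_notMem he]
  refine relAcyc_toggle _ l e fun T heT => ?_
  unfold Fam
  constructor
  · rintro ⟨⟨hA, hB⟩, h3, h4⟩
    exact ⟨⟨hA.trans (subset_insert _ _), insert_subset heB hB⟩, (key X1 E1 p T hA h1).mpr h3,
      (key X2 E2 q T hA h2).mpr h4⟩
  · rintro ⟨⟨hA, hB⟩, h3, h4⟩
    have hA' : A ⊆ T := fun x hx => by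
      rcases mem_insert.mp (hA hx) with rfl | h
      · exact absurd hx heA
      · exact h
    exact ⟨⟨hA', (subset_insert _ _).trans hB⟩, (key X1 E1 p T hA' h1).mp h3,
      (key X2 E2 q T hA' h2).mp h4⟩

/-- Deletion and contraction. -/
lemma fam_delcon {k : Type*} [Field k] {r : Finset (Fin n) → ℕ} (hr : IsRk r)
    {X1 E1 X2 E2 : Finset (Fin n)} {p q : ℕ} {A B : Finset (Fin n)} (l : ℕ) (e : Fin n)
    (h1 : RelAcyc k (Fam r X1 E1 X2 E2 p q A (B.erase e)) l)
    (h2 : RelAcyc k (Fam r X1 E1 X2 E2 p q (insert e A) B) l) :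
    RelAcyc k (Fam r X1 E1 X2 E2 p q A B) l := by
  refine relAcyc_filtration _ l (fun T => if e ∈ T then (0 : ℕ) else 1) ?_ ?_ ?_
  · intro T j hT _ i _ hi
    exact fam_up hr hT (subset_insert _ _) ((subset_insert _ _).trans hi.1.2)
  · intro T j _ _ _
    by_cases he : e ∈ T
    · simp [he]
    · rw [if_neg he]
      split_ifs <;> omega
  · intro t
    by_cases ht0 : t = 0
    · have : (fun T => Fam r X1 E1 X2 E2 p q A B T ∧ (if e ∈ T then (0 : ℕ) else 1) = t) =
          Fam r X1 E1 X2 E2 p q (insert e A) B := by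
        funext T
        apply propext
        unfold Fam
        constructor
        · rintro ⟨⟨⟨hA, hB⟩, h3⟩, h4⟩
          have he : e ∈ T := by
            by_contra hcon
            rw [if_neg hcon] at h4
            omega
          exact ⟨⟨insert_subset he hA, hB⟩, h3⟩
        · rintro ⟨⟨hA, hB⟩, h3⟩
          exact ⟨⟨⟨(subset_insert _ _).trans hA, hB⟩, h3⟩,
            by rw [if_pos (hA (mem_insert_self _ _)), ht0]⟩
      rw [this]
      exact h2
    · by_cases ht1 : t = 1
      · have : (fun T => Fam r X1 E1 X2 E2 p q A B T ∧ (if e ∈ T then (0 : ℕ) else 1) = t) =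
            Fam r X1 E1 X2 E2 p q A (B.erase e) := by
          funext T
          apply propext
          unfold Fam
          constructor
          · rintro ⟨⟨⟨hA, hB⟩, h3⟩, h4⟩
            have he : e ∉ T := by
              intro hcon
              rw [if_pos hcon] at h4
              omega
            exact ⟨⟨hA, fun x hx => mem_erase.mpr ⟨fun h => he (h ▸ hx), hB hx⟩⟩, h3⟩
          · rintro ⟨⟨hA, hB⟩, h3⟩
            exact ⟨⟨⟨hA, hB.trans (erase_subset _ _)⟩, h3⟩,
              by rw [if_neg (fun h => (mem_erase.mp (hB h)).1 rfl), ht1]⟩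
        rw [this]
        exact h1
      · refine relAcyc_of_empty _ l fun T hT _ => ?_
        have := hT.2
        split_ifs at this <;> omega

/-- Acyclicity above the expected degree. -/
theorem fam_acyclic {k : Type*} [Field k] {r : Finset (Fin n) → ℕ} (hr : IsRk r)
    {X1 E1 X2 E2 : Finset (Fin n)} (hE : Disjoint E1 E2) {p q : ℕ}
    {A B : Finset (Fin n)} (hAB : A ⊆ B) (l : ℕ)
    (hl : A.card + (p - r (X1 ∪ (A ∩ E1))) + (q - r (X2 ∪ (A ∩ E2))) < l) :
    RelAcyc k (Fam r X1 E1 X2 E2 p q A B) l := by
  induction hN : (B \ A).card generalizing A B with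
  | zero =>
    have hBA : B ⊆ A := by
      rw [card_eq_zero, sdiff_eq_empty_iff_subset] at hN
      exact hN
    refine relAcyc_of_empty _ l fun T hT hc => ?_
    have : T = A := Subset.antisymm (hT.1.2.trans hBA) hT.1.1
    rw [this] at hc
    omega
  | succ N ih =>
    obtain ⟨e, he⟩ : (B \ A).Nonempty := by rw [← card_pos]; omega
    rw [mem_sdiff] at he
    have hdel : RelAcyc k (Fam r X1 E1 X2 E2 p q A (B.erase e)) l := by
      refine ih (fun x hx => mem_erase.mpr ⟨fun h => he.2 (h ▸ hx), hAB hx⟩) hl ?_
      rw [erase_sdiff_comm, card_erase_of_mem (mem_sdiff.mpr he)]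
      omega
    have hcon : A.card + 1 + (p - r (X1 ∪ (insert e A ∩ E1))) +
        (q - r (X2 ∪ (insert e A ∩ E2))) < l →
        RelAcyc k (Fam r X1 E1 X2 E2 p q (insert e A) B) l := by
      intro h
      refine ih (insert_subset he.1 hAB) (by rw [card_insert_of_notMem he.2]; exact h) ?_
      have h1 : B \ insert e A = (B \ A).erase e := by
        ext x
        simp only [mem_sdiff, mem_insert, mem_erase, not_or]
        tauto
      rw [h1, card_erase_of_mem (mem_sdiff.mpr he)]
      omega
    by_cases h1 : e ∈ E1 → r (insert e (X1 ∪ (A ∩ E1))) = r (X1 ∪ (A ∩ E1)) ∨ p ≤ r (X1 ∪ (A ∩ E1))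
    · by_cases h2 : e ∈ E2 → r (insert e (X2 ∪ (A ∩ E2))) = r (X2 ∪ (A ∩ E2)) ∨ q ≤ r (X2 ∪ (A ∩ E2))
      · exact fam_toggle hr l he.2 he.1 h1 h2
      · push Not at h2
        obtain ⟨h3, h4, h5⟩ := h2
        have h6 : e ∉ E1 := fun h => (disjoint_left.mp hE h) h3
        refine fam_delcon hr l e hdel (hcon ?_)
        rw [insert_inter_of_notMem h6, insert_inter_of_mem h3, union_insert]
        have h7 := hr.insert_le (X2 ∪ (A ∩ E2)) e
        have h8 := hr.mono _ _ (subset_insert e (X2 ∪ (A ∩ E2)))
        omega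
    · push Not at h1
      obtain ⟨h3, h4, h5⟩ := h1
      have h6 : e ∉ E2 := fun h => (disjoint_left.mp hE h3) h
      refine fam_delcon hr l e hdel (hcon ?_)
      rw [insert_inter_of_notMem h6, insert_inter_of_mem h3, union_insert]
      have h7 := hr.insert_le (X1 ∪ (A ∩ E1)) e
      have h8 := hr.mono _ _ (subset_insert e (X1 ∪ (A ∩ E1)))
      omega

/-! ### The rank function of the dual matroid -/

/-- The rank function of the dual matroid. -/
noncomputable def dr (M : Matroid (Fin n)) (S : Finset (Fin n)) : ℕ :=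
  (M✶.eRk (S : Set (Fin n))).toNat

lemma coe_dr (M : Matroid (Fin n)) (S : Finset (Fin n)) :
    (dr M S : ℕ∞) = M✶.eRk (S : Set (Fin n)) := by
  unfold dr
  rw [ENat.natCast_toNat]
  rw [Matroid.eRk_ne_top_iff]
  exact M✶.isRkFinite_of_finite S.finite_toSet

lemma dr_isRk (M : Matroid (Fin n)) : IsRk (dr M) where
  mono S T h := by
    rw [← Nat.cast_le (α := ℕ∞), coe_dr, coe_dr]
    exact M✶.eRk_mono (by exact_mod_cast h)
  insert_le S e := by
    rw [← Nat.cast_le (α := ℕ∞), Nat.cast_add, coe_dr, coe_dr, coe_insert]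
    exact M✶.eRk_insert_le_add_one _ _
  closure S T e hST h := by
    by_cases heT : e ∈ T
    · rw [insert_eq_of_mem heT]
    have h1 := M✶.eRk_inter_add_eRk_union_le (insert e (S : Set (Fin n))) T
    have h2 : insert e (S : Set (Fin n)) ∩ T = (S : Set (Fin n)) := by
      ext x
      simp only [Set.mem_inter_iff, Set.mem_insert_iff, mem_coe]
      constructor
      · rintro ⟨rfl | h3, h4⟩
        · exact absurd h4 heT
        · exact h3
      · intro h3
        exact ⟨Or.inr h3, hST h3⟩
    have h3 : insert e (S : Set (Fin n)) ∪ T = ((insert e T : Finset (Fin n)) : Set (Fin n)) := by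
      rw [Set.insert_union, Set.union_eq_self_of_subset_left (by exact_mod_cast hST), coe_insert]
    rw [h2, h3, ← coe_insert, ← coe_dr, ← coe_dr, ← coe_dr, ← coe_dr, h] at h1
    have h4 : dr M (insert e T) ≤ dr M T := by
      have h5 : dr M S + dr M (insert e T) ≤ dr M S + dr M T := by exact_mod_cast h1
      omega
    refine le_antisymm h4 ?_
    rw [← Nat.cast_le (α := ℕ∞), coe_dr, coe_dr]
    exact M✶.eRk_mono (by simp)

/-- Independence in terms of the dual rank function. -/
lemma indep_iff {M : Matroid (Fin n)} (hM : M.E = Set.univ) (D : Finset (Fin n)) :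
    M.Indep (D : Set (Fin n)) ↔ dr M univ ≤ dr M Dᶜ := by
  have h1 : M.Indep (D : Set (Fin n)) ↔ M✶.Coindep (D : Set (Fin n)) := by
    rw [Matroid.dual_coindep_iff]
  have hE : M✶.E = Set.univ := by rw [Matroid.dual_ground, hM]
  have hfin : M✶.RankFinite := by
    have : M✶.Finite := ⟨by rw [hE]; exact Set.finite_univ⟩
    infer_instance
  rw [h1, Matroid.coindep_iff_compl_spanning (by rw [hE]; exact Set.subset_univ _),
    Matroid.spanning_iff_eRk_le (by rw [hE]; exact Set.subset_univ _), hE,
    ← Matroid.eRk_univ_eq, ← Nat.cast_le (α := ℕ∞), coe_dr, coe_dr, coe_univ, coe_compl,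
    ← Set.compl_eq_univ_sdiff]

lemma closure_union {r : Finset (Fin n) → ℕ} (hr : IsRk r) {X Y : Finset (Fin n)} (hXY : X ⊆ Y)
    (h : ∀ v ∈ Y, r (insert v X) = r X) : r Y = r X := by
  have key : ∀ Z : Finset (Fin n), Z ⊆ Y → r (X ∪ Z) = r X := by
    intro Z
    induction Z using Finset.induction_on with
    | empty => intro _; simp
    | insert v Z _ ih =>
      intro hZ
      rw [union_insert]
      rw [hr.closure X (X ∪ Z) v subset_union_left (h v (hZ (mem_insert_self _ _)))]
      exact ih ((subset_insert _ _).trans hZ)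
  have := key Y (Subset.refl _)
  rwa [union_eq_right.mpr hXY] at this

lemma rk_empty (M : Matroid (Fin n)) : dr M ∅ = 0 := by
  unfold dr
  simp

lemma rk_le_card {r : Finset (Fin n) → ℕ} (hr : IsRk r) (h0 : r ∅ = 0) (S : Finset (Fin n)) :
    r S ≤ S.card := by
  induction S using Finset.induction_on with
  | empty => simp [h0]
  | insert v S hv ih =>
    rw [card_insert_of_notMem hv]
    exact (hr.insert_le S v).trans (by omega)

/-- The monomials outside the second symbolic power. -/
lemma not_mem_iff {r : Finset (Fin n) → ℕ} (hr : IsRk r) (h : ℕ) (u : Fin n →₀ ℕ) :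
    (∃ C : Finset (Fin n), h ≤ r C ∧ ∑ v ∈ C, u v ≤ 1) ↔
      h - 1 ≤ r (univ.filter fun v => u v = 0) ∧ h ≤ r (univ.filter fun v => u v ≤ 1) := by
  constructor
  · rintro ⟨C, hC, hsum⟩
    have hle1 : ∀ v ∈ C, u v ≤ 1 := fun v hv =>
      (single_le_sum (f := fun v => u v) (fun _ _ => Nat.zero_le _) hv).trans hsum
    refine ⟨?_, hC.trans (hr.mono _ _ fun v hv => by simpa using hle1 v hv)⟩
    by_cases hz : ∃ v ∈ C, u v ≠ 0
    · obtain ⟨v, hv, hv0⟩ := hz
      have hsub : C ⊆ insert v (univ.filter fun v => u v = 0) := by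
        intro w hw
        rw [mem_insert]
        by_cases hwv : w = v
        · exact Or.inl hwv
        · right
          rw [mem_filter]
          refine ⟨mem_univ _, ?_⟩
          have h1 := add_sum_erase C (fun x => u x) hv
          have h2 : u w ≤ ∑ x ∈ C.erase v, u x :=
            single_le_sum (f := fun x => u x) (fun _ _ => Nat.zero_le _)
              (mem_erase.mpr ⟨hwv, hw⟩)
          omega
      have h1 := hr.mono _ _ hsub
      have h2 := hr.insert_le (univ.filter fun v => u v = 0) v
      omega
    · push Not at hz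
      have hsub : C ⊆ univ.filter fun v => u v = 0 := fun v hv => by simpa using hz v hv
      have := hr.mono _ _ hsub
      omega
  · rintro ⟨h0, h1⟩
    by_cases hc : h ≤ r (univ.filter fun v => u v = 0)
    · refine ⟨_, hc, ?_⟩
      rw [sum_eq_zero fun v hv => by simpa using hv]
      omega
    · have hex : ∃ v ∈ univ.filter (fun v => u v ≤ 1),
          r (insert v (univ.filter fun v => u v = 0)) ≠ r (univ.filter fun v => u v = 0) := by
        by_contra hcon
        push Not at hcon
        have := closure_union hr (X := univ.filter fun v => u v = 0)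
          (Y := univ.filter fun v => u v ≤ 1) (fun v hv => by
            have : u v = 0 := by simpa using hv
            simp [this]) hcon
        omega
      obtain ⟨v, hv, hv2⟩ := hex
      refine ⟨insert v (univ.filter fun v => u v = 0), ?_, ?_⟩
      · have h3 := hr.mono _ _ (subset_insert v (univ.filter fun v => u v = 0))
        omega
      · have hv1 : u v ≤ 1 := by simpa using hv
        by_cases hin : v ∈ univ.filter fun v => u v = 0
        · rw [insert_eq_of_mem hin, sum_eq_zero fun v hv => by simpa using hv]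
          omega
        · rw [sum_insert hin, sum_eq_zero fun v hv => by simpa using hv]
          omega

/-- The monomials of the second symbolic power. -/
def PP (M : Matroid (Fin n)) (u : Fin n →₀ ℕ) : Prop :=
  ∀ D : Finset (Fin n), (∀ F ∈ {F : Finset (Fin n) | ¬ M.Indep (F : Set (Fin n))}, ¬ F ⊆ D) →
    2 + ∑ i ∈ D, u i ≤ ∑ i, u i

lemma not_PP_iff {M : Matroid (Fin n)} (hM : M.E = Set.univ) (u : Fin n →₀ ℕ) :
    ¬ PP M u ↔ dr M univ - 1 ≤ dr M (univ.filter fun v => u v = 0) ∧
      dr M univ ≤ dr M (univ.filter fun v => u v ≤ 1) := by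
  rw [← not_mem_iff (dr_isRk M) (dr M univ) u]
  unfold PP
  push Not
  constructor
  · rintro ⟨D, hD, hlt⟩
    have hDI : M.Indep (D : Set (Fin n)) := by
      by_contra hcon
      exact hD D hcon (Subset.refl _)
    refine ⟨Dᶜ, (indep_iff hM D).mp hDI, ?_⟩
    have := sum_add_sum_compl D (fun i => u i)
    omega
  · rintro ⟨C, hC, hsum⟩
    refine ⟨Cᶜ, ?_, ?_⟩
    · intro F hF hsub
      apply hF
      refine Matroid.Indep.subset ((indep_iff hM Cᶜ).mpr (by rwa [compl_compl])) ?_
      exact_mod_cast hsub
    · have := sum_add_sum_compl C (fun i => u i)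
      omega

lemma QQ_eq_fam {M : Matroid (Fin n)} (hM : M.E = Set.univ) (b : Fin n →₀ ℕ) :
    QQ (PP M) b = Fam (dr M) (univ.filter fun v => b v = 0) (univ.filter fun v => b v = 1)
      (univ.filter fun v => b v ≤ 1) (univ.filter fun v => b v = 2) (dr M univ - 1) (dr M univ)
      ∅ (univ.filter fun v => b v ≠ 0) := by
  funext T
  apply propext
  unfold QQ Fam
  have hT : ind T ≤ b ↔ T ⊆ univ.filter fun v => b v ≠ 0 := by
    constructor
    · intro h v hv
      have := h v
      rw [ind_apply, if_pos hv] at this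
      simp only [mem_filter, mem_univ, true_and]
      omega
    · intro h v
      rw [ind_apply]
      split_ifs with hv
      · have := h hv
        simp only [mem_filter, mem_univ, true_and] at this
        omega
      · omega
  rw [hT, not_PP_iff hM]
  refine ⟨fun h => ⟨⟨empty_subset _, h.1⟩, ?_⟩, fun h => ⟨h.1.2, ?_⟩⟩
  all_goals
    have hsub : T ⊆ univ.filter fun v => b v ≠ 0 := by
      first | exact h.1 | exact h.1.2
    have h0 : (univ.filter fun v => (b - ind T) v = 0) =
        (univ.filter fun v => b v = 0) ∪ (T ∩ univ.filter fun v => b v = 1) := by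
      ext v
      have e1 : (b - ind T) v = b v - (if v ∈ T then 1 else 0) := rfl
      simp only [mem_filter, mem_univ, true_and, mem_union, mem_inter]
      by_cases hv : v ∈ T
      · have := hsub hv
        simp only [mem_filter, mem_univ, true_and] at this
        rw [if_pos hv] at e1
        rw [e1]
        simp only [hv, true_and]
        omega
      · rw [if_neg hv] at e1
        rw [e1]
        simp only [hv, false_and, or_false, Nat.sub_zero]
    have h1 : (univ.filter fun v => (b - ind T) v ≤ 1) =
        (univ.filter fun v => b v ≤ 1) ∪ (T ∩ univ.filter fun v => b v = 2) := by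
      ext v
      have e1 : (b - ind T) v = b v - (if v ∈ T then 1 else 0) := rfl
      simp only [mem_filter, mem_univ, true_and, mem_union, mem_inter]
      by_cases hv : v ∈ T
      · have := hsub hv
        simp only [mem_filter, mem_univ, true_and] at this
        rw [if_pos hv] at e1
        rw [e1]
        simp only [hv, true_and]
        omega
      · rw [if_neg hv] at e1
        rw [e1]
        simp only [hv, false_and, or_false, Nat.sub_zero]
  · rw [← h0, ← h1]; exact h.2
  · rw [h0, h1]; exact h.2

lemma disjoint_levels (b : Fin n →₀ ℕ) :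
    Disjoint (univ.filter fun v => b v = 1) (univ.filter fun v => b v = 2) := by
  rw [disjoint_left]
  intro v h1 h2
  simp only [mem_filter, mem_univ, true_and] at h1 h2
  omega

lemma fam_sub (b : Fin n →₀ ℕ) (T : Finset (Fin n)) :
    (univ.filter fun v => b v = 0) ∪ (T ∩ univ.filter fun v => b v = 1) ⊆
      univ.filter fun v => b v ≤ 1 := by
  intro v hv
  simp only [mem_filter, mem_univ, true_and, mem_union, mem_inter] at hv ⊢
  omega

/-- The strands are acyclic above degree `h`. -/
lemma acyclic_above {k : Type*} [Field k] {M : Matroid (Fin n)} (hM : M.E = Set.univ)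
    (b : Fin n →₀ ℕ) {l : ℕ} (hl : dr M univ < l) : RelAcyc k (QQ (PP M) b) l := by
  rw [QQ_eq_fam hM]
  by_cases h1 : dr M (univ.filter fun v => b v ≤ 1) < dr M univ - 1
  · refine relAcyc_of_empty _ l fun T hT _ => ?_
    have := hT.2.1.trans ((dr_isRk M).mono _ _ (fam_sub b T))
    omega
  · refine fam_acyclic (dr_isRk M) (disjoint_levels b) (empty_subset _) l ?_
    rw [card_empty, empty_inter, empty_inter, union_empty, union_empty]
    omega

/-- The loops of the dual matroid. -/
noncomputable def loops (M : Matroid (Fin n)) : Finset (Fin n) :=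
  univ.filter fun e => dr M {e} = 0

/-- In degree `h` the strands are acyclic except for one total degree. -/
lemma acyclic_top {k : Type*} [Field k] {M : Matroid (Fin n)} (hM : M.E = Set.univ) {s : ℕ}
    (hs : ∀ C : Finset (Fin n), M.IsCircuit (C : Set (Fin n)) → C.card = s)
    (b : Fin n →₀ ℕ) (hna : ¬ RelAcyc k (QQ (PP M) b) (dr M univ)) :
    ∑ v, b v = if dr M univ = 0 then 0 else n - (loops M).card + s := by
  have hr := dr_isRk M
  rw [QQ_eq_fam hM] at hna
  -- no toggling is possible
  have htog : ∀ e, b e ≠ 0 →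
      (b e = 1 ∧ dr M (insert e (univ.filter fun v => b v = 0)) ≠ dr M (univ.filter fun v => b v = 0) ∧
        dr M (univ.filter fun v => b v = 0) < dr M univ - 1) ∨
      (b e = 2 ∧ dr M (insert e (univ.filter fun v => b v ≤ 1)) ≠ dr M (univ.filter fun v => b v ≤ 1) ∧
        dr M (univ.filter fun v => b v ≤ 1) < dr M univ) := by
    intro e he
    by_contra hcon
    push Not at hcon
    apply hna
    refine fam_toggle hr (dr M univ) (notMem_empty e) (by simpa using he) ?_ ?_
    · intro h1
      rw [empty_inter, union_empty]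
      by_cases h2 : dr M (insert e (univ.filter fun v => b v = 0)) = dr M (univ.filter fun v => b v = 0)
      · exact Or.inl h2
      · exact Or.inr (hcon.1 (by simpa using h1) h2)
    · intro h1
      rw [empty_inter, union_empty]
      by_cases h2 : dr M (insert e (univ.filter fun v => b v ≤ 1)) = dr M (univ.filter fun v => b v ≤ 1)
      · exact Or.inl h2
      · exact Or.inr (hcon.2 (by simpa using h1) h2)
  by_cases h0 : dr M univ = 0
  · rw [if_pos h0]
    refine sum_eq_zero fun v _ => ?_
    by_contra hv
    rcases htog v hv with h1 | h1 <;> omega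
  rw [if_neg h0]
  have hr1 : dr M univ - 1 ≤ dr M (univ.filter fun v => b v ≤ 1) := by
    by_contra hcon
    apply hna
    refine relAcyc_of_empty _ _ fun T hT _ => ?_
    have := hT.2.1.trans (hr.mono _ _ (fam_sub b T))
    omega
  have hnum : ¬ ((∅ : Finset (Fin n)).card + (dr M univ - 1 - dr M (univ.filter fun v => b v = 0)) +
      (dr M univ - dr M (univ.filter fun v => b v ≤ 1)) < dr M univ) := by
    intro h
    apply hna
    refine fam_acyclic hr (disjoint_levels b) (empty_subset _) _ ?_
    rw [empty_inter, empty_inter, union_empty, union_empty]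
    exact h
  rw [card_empty] at hnum
  have h01 : dr M (univ.filter fun v => b v = 0) ≤ dr M (univ.filter fun v => b v ≤ 1) :=
    hr.mono _ _ fun v hv => by
      have : b v = 0 := by simpa using hv
      simp [this]
  have hrk1 : dr M (univ.filter fun v => b v ≤ 1) = dr M univ - 1 := by omega
  have hrk0 : dr M (univ.filter fun v => b v = 0) = 0 := by omega
  -- the zero set is the set of loops
  have hnl : ∀ (e : Fin n) (X : Finset (Fin n)), dr M (insert e X) ≠ dr M X → dr M {e} ≠ 0 := by
    intro e X h1 h2
    apply h1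
    refine hr.closure ∅ X e (empty_subset _) ?_
    rw [rk_empty, insert_empty_eq, h2]
  have hloops : ∀ e, b e = 0 ↔ e ∈ loops M := by
    intro e
    unfold loops
    rw [mem_filter]
    constructor
    · intro he
      refine ⟨mem_univ _, ?_⟩
      have := hr.mono {e} (univ.filter fun v => b v = 0) (by simpa using he)
      omega
    · rintro ⟨-, he⟩
      by_contra hcon
      rcases htog e hcon with h1 | h1
      · exact hnl e _ h1.2.1 he
      · exact hnl e _ h1.2.1 he
  -- the set where `b = 2` is a circuit
  have hcompl : (univ.filter fun v => b v = 2)ᶜ = univ.filter fun v => b v ≤ 1 := by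
    ext v
    simp only [mem_compl, mem_filter, mem_univ, true_and]
    constructor
    · intro h
      by_contra hcon
      rcases htog v (by omega) with h1 | h1 <;> omega
    · intro h; omega
  have hcirc : M.IsCircuit ((univ.filter fun v => b v = 2 : Finset (Fin n)) : Set (Fin n)) := by
    rw [Matroid.isCircuit_iff_dep_forall_sdiff_singleton_indep]
    refine ⟨?_, ?_⟩
    · rw [Matroid.dep_iff]
      refine ⟨?_, by rw [hM]; exact Set.subset_univ _⟩
      rw [indep_iff hM, hcompl]
      omega
    · intro e he
      have he' : b e = 2 := by simpa using he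
      have h1 : ((univ.filter fun v => b v = 2 : Finset (Fin n)) : Set (Fin n)) \ {e} =
          (((univ.filter fun v => b v = 2).erase e : Finset (Fin n)) : Set (Fin n)) := by
        rw [coe_erase]
      rw [h1, indep_iff hM, compl_erase, hcompl]
      rcases htog e (by omega) with h2 | h2
      · omega
      · have h3 := hr.mono _ _ (subset_insert e (univ.filter fun v => b v ≤ 1))
        omega
  have hcard := hs _ hcirc
  have hsum : ∑ v, b v = ∑ v, ((if v ∈ loops M then 0 else 1) + if b v = 2 then 1 else 0) := by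
    refine sum_congr rfl fun v _ => ?_
    by_cases hv : b v = 0
    · rw [if_pos ((hloops v).mp hv), if_neg (by omega), hv]
    · rw [if_neg (fun h => hv ((hloops v).mpr h))]
      rcases htog v hv with h1 | h1
      · rw [if_neg (by omega)]; omega
      · rw [if_pos h1.1]; omega
  rw [hsum, sum_add_distrib, ← card_filter, hcard]
  congr 1
  have h1 : ∑ v, (if v ∈ loops M then 0 else 1) = (loops M)ᶜ.card := by
    rw [card_eq_sum_ones, ← sum_filter_add_sum_filter_not univ (fun v => v ∈ loops M)
      (fun v => if v ∈ loops M then 0 else 1)]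
    rw [sum_eq_zero (s := univ.filter fun v => v ∈ loops M), zero_add]
    · refine sum_congr ?_ fun v hv => ?_
      · ext v; simp
      · rw [if_neg]
        simpa using hv
    · intro v hv
      rw [if_pos]
      simpa using hv
  rw [h1, card_compl, Fintype.card_fin]

/-! ### The height -/

section Height

variable {k : Type*} [Field k]

lemma PV_ne_top (C : Set (Fin n)) : PV k C ≠ ⊤ := (PV_isPrime C).ne_top

lemma le_height_PV (C : Finset (Fin n)) : (C.card : ℕ∞) ≤ (PV k (C : Set (Fin n))).height := by
  induction C using Finset.induction_on with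
  | empty => simp
  | insert v C hv ih =>
    rw [card_insert_of_notMem hv]
    have := PV_isPrime (K := k) (C : Set (Fin n))
    have := PV_isPrime (K := k) ((insert v C : Finset (Fin n)) : Set (Fin n))
    have hlt : PV k (C : Set (Fin n)) < PV k ((insert v C : Finset (Fin n)) : Set (Fin n)) := by
      refine lt_of_le_of_ne (PV_mono (by simp)) fun h => hv ?_
      have h1 := PV_le_iff.mp h.ge
      exact h1 (mem_insert_self v C)
    have h2 := Ideal.height_add_one_le_of_lt_of_isPrime hlt
    rw [Nat.cast_add, Nat.cast_one]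
    exact (add_le_add ih le_rfl).trans h2

lemma height_PV_le (C : Finset (Fin n)) : (PV k (C : Set (Fin n))).height ≤ C.card := by
  refine (Ideal.height_le_spanFinrank _ (PV_ne_top _)).trans ?_
  rw [Nat.cast_le]
  unfold PV Ideal.span
  refine (Submodule.spanFinrank_span_le_ncard_of_finite (C.finite_toSet.image _)).trans ?_
  refine (Set.ncard_image_le C.finite_toSet).trans ?_
  rw [Set.ncard_coe_finset]

lemma height_symb {M : Matroid (Fin n)} (hM : M.E = Set.univ) :
    (symbPow (srIdeal k M) 2).height = (dr M univ : ℕ∞) := by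
  classical
  apply le_antisymm
  · obtain ⟨B, hB⟩ := M✶.exists_isBase
    have hBc : dr M B.toFinset = B.toFinset.card := by
      rw [← Nat.cast_inj (R := ℕ∞), coe_dr, Set.coe_toFinset, hB.indep.eRk_eq_encard,
        ← Set.encard_coe_eq_coe_finsetCard, Set.coe_toFinset]
    have hBu : dr M B.toFinset = dr M univ := by
      rw [← Nat.cast_inj (R := ℕ∞), coe_dr, coe_dr, Set.coe_toFinset, hB.eRk_eq_eRank, coe_univ,
        Matroid.eRk_univ_eq]
    have hcov : Cover {F : Finset (Fin n) | ¬ M.Indep (F : Set (Fin n))} (B.toFinset : Set (Fin n)) := by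
      intro F hF
      by_contra hcon
      push Not at hcon
      apply hF
      have h1 : M.Indep ((B.toFinset)ᶜ : Finset (Fin n)) := by
        rw [indep_iff hM, compl_compl, hBu]
      refine h1.subset fun v hv => ?_
      rw [mem_coe, mem_compl]
      intro h2
      exact hcon v hv h2
    have hle : symbPow (srIdeal k M) 2 ≤ PV k (B.toFinset : Set (Fin n)) := by
      have := PV_isPrime (K := k) (B.toFinset : Set (Fin n))
      obtain ⟨P, hP, hPC⟩ := Ideal.exists_minimalPrimes_le ((sqf_le_PV (K := k) _ _).mpr hcov)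
      unfold symbPow
      refine (iInf₂_le P hP).trans ((Ideal.pow_le_self (by norm_num)).trans hPC)
    refine (Ideal.height_mono hle).trans ((height_PV_le _).trans ?_)
    rw [← hBc, hBu]
  · rw [Ideal.height_eq_inf_minimalPrimes]
    refine le_iInf₂ fun P hP => ?_
    have hPp : P.IsPrime := hP.1.1
    have h1 : srIdeal k M ≤ P := by
      have h2 : srIdeal k M ^ 2 ≤ P := (pow_le_symbPow _ 2).trans hP.1.2
      exact hPp.le_of_pow_le h2
    have h3 := (sqf_le_iff _).mp h1
    set C : Finset (Fin n) := univ.filter fun v => (X v : MvPolynomial (Fin n) k) ∈ P with hC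
    have hC' : (C : Set (Fin n)) = {v | (X v : MvPolynomial (Fin n) k) ∈ P} := by
      ext v; simp [hC]
    have h4 : dr M univ ≤ dr M C := by
      have h5 : M.Indep ((Cᶜ : Finset (Fin n)) : Set (Fin n)) := by
        by_contra hcon
        obtain ⟨v, hv, hvC⟩ := h3 Cᶜ hcon
        rw [← hC', mem_coe] at hvC
        exact (mem_compl.mp hv) hvC
      rw [indep_iff hM, compl_compl] at h5
      exact h5
    have h6 := rk_le_card (dr_isRk M) (rk_empty M) C
    calc (dr M univ : ℕ∞) ≤ (C.card : ℕ∞) := by exact_mod_cast h4.trans h6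
      _ ≤ (PV k (C : Set (Fin n))).height := le_height_PV C
      _ ≤ P.height := Ideal.height_mono (by rw [hC']; exact PV_le_of_prime P)

end Height

/-! ### The result -/

/-- For every matroid `M` on `[n]` all of whose circuits have the same size `s`, and every field `k`,
the second symbolic power of the Stanley–Reisner ideal of `M` defines a level algebra. -/
theorem result {n : ℕ} (M : Matroid (Fin n)) (hM : M.E = Set.univ) (s : ℕ)
    (hs : ∀ C : Finset (Fin n), M.IsCircuit (C : Set (Fin n)) → C.card = s)
    (k : Type*) [Field k] : IsLevel (symbPow (srIdeal k M) 2) := by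
  have hJ : ∀ p : MvPolynomial (Fin n) k, p ∈ symbPow (srIdeal k M) 2 ↔
      ∀ c ∈ p.support, PP M c := by
    intro p
    unfold srIdeal
    rw [(isMon_symbPow _ 2).mem_iff]
    simp only [monomial_mem_symbPow']
    rfl
  have hP : ∀ u v : Fin n →₀ ℕ, u ≤ v → PP M u → PP M v := by
    intro u v huv h D hD
    have h1 := h D hD
    have h2 := sum_add_sum_compl D (fun i => u i)
    have h3 := sum_add_sum_compl D (fun i => v i)
    have h4 : ∑ i ∈ Dᶜ, u i ≤ ∑ i ∈ Dᶜ, v i := sum_le_sum fun i _ => huv i
    omega
  refine ⟨dr M univ, (if dr M univ = 0 then 0 else n - (loops M).card + s) - dr M univ,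
    height_symb hM, ?_, ?_⟩
  · intro i e hi
    exact not_torQ _ (PP M) hJ hP i e fun b _ => acyclic_above hM b hi
  · intro e he
    by_contra hne
    refine not_torQ _ (PP M) hJ hP (dr M univ) e (fun b hb => ?_) he
    by_contra hna
    have := acyclic_top hM hs b hna
    omega

end Pool.Agent.Results.MP_d6b0b9_al.Equicardinal
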